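import Pool.Agent.H982.HP11

/-!
# The scaling limit of the half-plane self-avoiding walk does not feel the boundary condition

The uniform self-avoiding walk in the upper half of the square lattice, `μ` its infinite volume
limit.

* Every law `ν ≪ μ` has the same scaling limits as `μ` (for instance `μ` conditioned on an event of
  positive probability).
* For every `r` there is an `a > 1` such that every boundary interaction `W` (an arbitrary
  nonnegative function of the part of the walk up to the last visit of the heights `≤ r`) with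
  `W ≤ C a ^ (number of visited sites with height ≤ r)` has an infinite volume limit `ν ≪ μ`, its
  partition function is asymptotic to a constant times the number of half-plane walks, and along
  every sequence of scales the walk with `n` steps and the interaction has the same limits as the
  walk with `n` steps.  This contains walks in half-planes with an arbitrary rough boundary.
-/

set_option autoImplicit false

namespace Pool.Agent.Results.MP_df1d0b_pr.BoundaryUniversality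

open Filter Topology MeasureTheory

/-- the points of the square lattice -/
def Z2 : Set ℂ := {z | ∃ a b : ℤ, z = a + b * Complex.I}

/-- the self-avoiding walks with `n` steps in the closed upper half of the square lattice which
start at `0`; a walk is continued by its last point -/
def HalfWalks (n : ℕ) : Set (ℕ → ℂ) :=
  {γ | γ 0 = 0 ∧ (∀ i, γ i ∈ Z2 ∧ 0 ≤ (γ i).im) ∧ (∀ i < n, ‖γ (i + 1) - γ i‖ = 1) ∧
    (∀ i ≤ n, ∀ j ≤ n, γ i = γ j → i = j) ∧ ∀ i, n ≤ i → γ i = γ n}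

/-- the mean under the uniform law of the half-plane walks with `n` steps -/
noncomputable def mean (n : ℕ) (F : (ℕ → ℂ) → ℝ) : ℝ :=
  (∑ᶠ γ ∈ HalfWalks n, F γ) / ((HalfWalks n).ncard : ℝ)

/-- the mean under the law with the weight `W` -/
noncomputable def wmean (n : ℕ) (W F : (ℕ → ℂ) → ℝ) : ℝ :=
  (∑ᶠ γ ∈ HalfWalks n, W γ * F γ) / ∑ᶠ γ ∈ HalfWalks n, W γ

/-- `μ` is the law of the infinite half-plane walk: the weak limit of the uniform laws -/
def IsInfiniteWalk (μ : Measure (ℕ → ℂ)) : Prop :=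
  IsProbabilityMeasure μ ∧ ∀ F : BoundedContinuousFunction (ℕ → ℂ) ℝ,
    Tendsto (fun n => mean n (fun γ => F γ)) atTop (𝓝 (∫ γ, F γ ∂μ))

/-- a family of functionals with values in `[-1, 1]` with a common modulus of continuity for the
supremum distance -/
def Equi {ι : Type} (Φ : ι → (ℕ → ℂ) → ℝ) : Prop :=
  (∀ s x, |Φ s x| ≤ 1) ∧ ∀ ε : ℝ, 0 < ε → ∃ δ : ℝ, 0 < δ ∧ ∀ (s : ι) (x y : ℕ → ℂ),
    (∀ i, ‖x i - y i‖ ≤ δ) → |Φ s x - Φ s y| ≤ ε

/-- the laws of the scaled walk `s γ` under `ν` and under `μ` merge as `s ↘ 0`, uniformly over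
equicontinuous families of functionals -/
def SameScaling (ν μ : Measure (ℕ → ℂ)) : Prop :=
  ∀ Φ : ℝ → (ℕ → ℂ) → ℝ, Equi Φ → (∀ s, Measurable (Φ s)) →
    Tendsto (fun s : ℝ => ∫ γ, Φ s (fun i => (s : ℂ) * γ i) ∂ν -
      ∫ γ, Φ s (fun i => (s : ℂ) * γ i) ∂μ) (𝓝[>] 0) (𝓝 0)

/-- `W` depends only on the part of the walk up to time `r` and up to the last visit of the
heights `≤ r` -/
def Local (r : ℕ) (W : (ℕ → ℂ) → ℝ) : Prop :=
  ∀ (γ γ' : ℕ → ℂ) (L : ℕ), r ≤ L → (∀ i ≤ L, γ i = γ' i) →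
    (∀ i, L < i → (r : ℝ) < (γ i).im ∧ (r : ℝ) < (γ' i).im) → W γ = W γ'

/-- the number of visited sites with height at most `r` -/
noncomputable def vis (r : ℕ) (γ : ℕ → ℂ) : ℕ := (Set.range γ ∩ {z : ℂ | z.im ≤ r}).ncard

/-- `W` allows a finite walk which leaves the heights `≤ r` and ends at its highest level -/
def Leaves (r : ℕ) (W : (ℕ → ℂ) → ℝ) : Prop :=
  ∃ m, ∃ γ ∈ HalfWalks m, 0 < W γ ∧ (r : ℝ) < (γ m).im ∧ ∀ i, (γ i).im ≤ (γ m).im

/-- the weight `W` changes neither the order of the partition function nor any scaling limit -/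
def Irrelevant (μ : Measure (ℕ → ℂ)) (W : (ℕ → ℂ) → ℝ) : Prop :=
  (∃ c : ℝ, 0 < c ∧ Tendsto (fun n => mean n W) atTop (𝓝 c)) ∧
  (∃ ν : Measure (ℕ → ℂ), IsProbabilityMeasure ν ∧ ν ≪ μ ∧ SameScaling ν μ ∧
    ∀ F : BoundedContinuousFunction (ℕ → ℂ) ℝ,
      Tendsto (fun n => wmean n W (fun γ => F γ)) atTop (𝓝 (∫ γ, F γ ∂ν))) ∧
  ∀ Φ : ℕ → (ℕ → ℂ) → ℝ, Equi Φ → ∀ s : ℕ → ℝ, Tendsto s atTop (𝓝 0) →
    Tendsto (fun n => wmean n W (fun γ => Φ n (fun i => (s n : ℂ) * γ i)) -
      mean n (fun γ => Φ n (fun i => (s n : ℂ) * γ i))) atTop (𝓝 0)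

open Classical in
/-- the indicator of the walks whose sites of height `≤ r` lie in `D` -/
noncomputable def rough (r : ℕ) (D : Set ℂ) (γ : ℕ → ℂ) : ℝ :=
  if ∀ i, (γ i).im ≤ r → γ i ∈ D then 1 else 0

open H982.HP in
lemma mean_eq (n : ℕ) (F : (ℕ → ℂ) → ℝ) : mean n F = Mn n F := Mn_eq n F

open H982.HP in
lemma wmean_eq (n : ℕ) (W F : (ℕ → ℂ) → ℝ) :
    wmean n W F = Mn n (fun γ => W γ * F γ) / Mn n W := by
  have h1 := PW_sum n (fun γ => W γ * F γ)
  have h2 := PW_sum n W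
  have e : wmean n W F = (∑ᶠ γ ∈ Pool.Agent.H976R3.HPL.PW Pool.Agent.N941.SP.Z2 1 n, W γ * F γ) /
    ∑ᶠ γ ∈ Pool.Agent.H976R3.HPL.PW Pool.Agent.N941.SP.Z2 1 n, W γ := rfl
  rw [e, h1, h2]
  unfold Mn
  have := (hC_pos n).ne'
  field_simp

open H982.HP in
lemma mem_half {n : ℕ} {γ : ℕ → ℂ} (h : γ ∈ HalfWalks n) : ∃ w ∈ Kc n, PS w = γ := by
  have h1 : γ ∈ Pool.Agent.H976R3.HPL.PW Pool.Agent.N941.SP.Z2 1 n := h
  rw [PW_PS] at h1
  exact h1

open H982.HP in
lemma loc_of {r : ℕ} {W : (ℕ → ℂ) → ℝ} (h : Local r W) : Loc (r + 1) W := by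
  intro γ γ' L hL h1 h2
  refine h γ γ' (L - 1) (by omega) (fun i hi => h1 i (by omega)) fun i hi => ?_
  have h3 := h2 i (by omega)
  push_cast at h3
  exact ⟨by linarith [h3.1], by linarith [h3.2]⟩

open H982.HP in
theorem irrelevant_of {μ : Measure (ℕ → ℂ)} (hμ : Lim μ) (hH : ∀ᵐ γ ∂μ, γ ∈ Hs)
    (hW1 : ∀ᵐ γ ∂μ, γ ∈ W1) {r : ℕ} {W : (ℕ → ℂ) → ℝ} (h0 : ∀ γ, 0 ≤ W γ) (hW : Local r W)
    (hL : Leaves r W) {C : ℝ} (hC : ∀ n, Mn n (fun γ => (W γ) ^ 2) ≤ C) : Irrelevant μ W := by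
  have hl := loc_of hW
  obtain ⟨hi, hlim⟩ := loc_unif hμ hH hl hC
  have hlim1 := hlim (BoundedContinuousFunction.const _ 1)
  simp only [BoundedContinuousFunction.const_apply, mul_one] at hlim1
  have hpos : 0 < ∫ γ, W γ ∂μ := by
    obtain ⟨m, γ, hγ, hp, hr, hm⟩ := hL
    obtain ⟨w, hw, rfl⟩ := mem_half hγ
    have wne := Kc_ne hw
    have hlen : w.length = m + 1 := (Pool.Agent.R965.HP.mem_Kc.1 hw).1.1
    have e1 : PS w m = Pool.Agent.N941.SP.ps (TH966.AK.lst w) := by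
      unfold PS
      rw [Pool.Agent.R965.HP.pth_ge wne (by omega)]
    rw [e1, Pool.Agent.N941.SP.ps_im] at hr hm
    have hr' : (r : ℤ) < (TH966.AK.lst w).1 := by exact_mod_cast hr
    have h2 := W1_lip (PS_W1 hw) 0 m
    rw [zero_add, (PS_W1 hw).1, sub_zero, e1] at h2
    have h3 := (Complex.abs_im_le_norm (Pool.Agent.N941.SP.ps (TH966.AK.lst w))).trans h2
    rw [Pool.Agent.N941.SP.ps_im] at h3
    have h4 : ((TH966.AK.lst w).1 : ℝ) ≤ m := (le_abs_self _).trans h3
    have h5 : (TH966.AK.lst w).1 ≤ (m : ℤ) := by exact_mod_cast h4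
    refine pos_int hl h0 hw ?_ (by push_cast; omega) (by omega) hp hlim1
    intro x hx
    obtain ⟨i, hi, rfl⟩ := List.getElem_of_mem hx
    have h6 := hm i
    unfold PS at h6
    rw [Pool.Agent.R965.HP.pth_lt hi, Pool.Agent.N941.SP.ps_im] at h6
    exact_mod_cast h6
  refine ⟨⟨∫ γ, W γ ∂μ, hpos, ?_⟩, ?_, ?_⟩
  · simp only [mean_eq]
    exact hlim1
  · obtain ⟨t1, t2, t3⟩ := tilt_facts h0 hi hpos
    refine ⟨tilt μ W, t1, t2, ?_, fun F => ?_⟩
    · intro Φ hΦ hm
      exact mix hμ hW1 ⟨hm, hΦ.1, hΦ.2⟩ (tilt μ W) t2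
    · rw [t3]
      simp only [wmean_eq]
      exact (hlim F).div hlim1 hpos.ne'
  · intro Φ hΦ s hs
    simp only [wmean_eq, mean_eq]
    exact joint hl hC hpos hlim1 Φ hΦ.1 hΦ.2 s hs

/-- **Main theorem.** -/
theorem result : ∃ μ : Measure (ℕ → ℂ), IsInfiniteWalk μ ∧
    (∀ ν : Measure (ℕ → ℂ), IsProbabilityMeasure ν → ν ≪ μ → SameScaling ν μ) ∧
    (∀ r : ℕ, ∃ a : ℝ, 1 < a ∧ ∀ W : (ℕ → ℂ) → ℝ, (∀ γ, 0 ≤ W γ) → Local r W → Leaves r W →
      (∃ C : ℝ, ∀ n, ∀ γ ∈ HalfWalks n, W γ ≤ C * a ^ vis r γ) → Irrelevant μ W) ∧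
    (∀ (r : ℕ) (D : Set ℂ), (∃ m, ∃ γ ∈ HalfWalks m, (∀ i, (γ i).im ≤ r → γ i ∈ D) ∧
      (r : ℝ) < (γ m).im) → Irrelevant μ (rough r D)) := by
  classical
  obtain ⟨μ, hp, hae, -, hlim⟩ := Pool.Agent.N941.SP.concl_sq
  have hμ : H982.HP.Lim μ := by
    refine ⟨hp, fun F => ?_⟩
    have := hlim F
    simp only [H982.HP.Mn_eq] at this
    exact this
  have hH : ∀ᵐ γ ∂μ, γ ∈ H982.HP.Hs := by
    filter_upwards [hae] with γ hγ
    exact fun i => (hγ.2.1 i).2
  have hW1 : ∀ᵐ γ ∂μ, γ ∈ H982.HP.W1 := by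
    filter_upwards [hae] with γ hγ
    exact ⟨hγ.1, fun i => (hγ.2.2.1 i).le⟩
  have hone : ∀ r : ℕ, 1 < H982.EX.la 2 r := fun r => H982.EX.one_lt_la 2 r
  refine ⟨μ, ⟨hp, fun F => ?_⟩, ?_, ?_, ?_⟩
  · simp only [mean_eq]
    exact hμ.2 F
  · intro ν hν hac Φ hΦ hm
    exact H982.HP.mix hμ hW1 ⟨hm, hΦ.1, hΦ.2⟩ ν hac
  · intro r
    refine ⟨√(H982.EX.la 2 r), ?_, ?_⟩
    · rw [Real.lt_sqrt zero_le_one, one_pow]
      exact hone r
    · rintro W h0 hW hL ⟨C, hC⟩
      refine irrelevant_of hμ hH hW1 h0 hW hL (C := C ^ 2 *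
        (H982.EX.la 2 r ^ H982.EX.KK 2 r * (2 * (4 * 2 + 1)))) fun n => ?_
      refine H982.HP.moment_W (sq_nonneg C) (fun n γ hγ => ?_) n
      have h1 := hC n γ hγ
      have h2 : (W γ) ^ 2 ≤ (C * √(H982.EX.la 2 r) ^ vis r γ) ^ 2 :=
        pow_le_pow_left₀ (h0 γ) h1 2
      refine h2.trans (le_of_eq ?_)
      rw [mul_pow, ← pow_mul, mul_comm (vis r γ) 2, pow_mul, Real.sq_sqrt (by linarith [hone r])]
      rfl
  · rintro r D ⟨m, γ, hγ, hD, hr⟩
    have h0 : ∀ γ, 0 ≤ rough r D γ := fun γ => by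
      unfold rough
      split_ifs
      · exact zero_le_one
      · exact le_rfl
    have hle : ∀ γ, rough r D γ ≤ 1 := fun γ => by
      unfold rough
      split_ifs
      · exact le_rfl
      · exact zero_le_one
    have hloc : Local r (rough r D) := by
      intro γ γ' L hL h1 h2
      have e : (∀ i, (γ i).im ≤ r → γ i ∈ D) ↔ (∀ i, (γ' i).im ≤ r → γ' i ∈ D) := by
        constructor
        · intro h i hi
          by_cases hiL : i ≤ L
          · rw [← h1 i hiL] at hi ⊢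
            exact h i hi
          · exact absurd hi (not_le.2 (h2 i (by omega)).2)
        · intro h i hi
          by_cases hiL : i ≤ L
          · rw [h1 i hiL] at hi ⊢
            exact h i hi
          · exact absurd hi (not_le.2 (h2 i (by omega)).1)
      unfold rough
      rw [if_congr e rfl rfl]
    have hleave : Leaves r (rough r D) := by
      have hex : ∃ t, (r : ℝ) < (γ t).im := ⟨m, hr⟩
      obtain ⟨t, ht⟩ : ∃ t, t = Nat.find hex := ⟨_, rfl⟩
      have h1 : (r : ℝ) < (γ t).im := by rw [ht]; exact Nat.find_spec hex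
      have h2 : t ≤ m := by rw [ht]; exact Nat.find_min' hex hr
      have h3 : ∀ i, i < t → (γ i).im ≤ r := fun i hi => by
        rw [ht] at hi
        exact not_lt.1 (Nat.find_min hex hi)
      obtain ⟨g0, g1, g2, g3, g4⟩ := hγ
      refine ⟨t, fun i => γ (min i t), ⟨?_, ?_, ?_, ?_, ?_⟩, ?_, ?_, ?_⟩
      · simpa using g0
      · exact fun i => g1 _
      · intro i hi
        simp only
        rw [min_eq_left (by omega : i + 1 ≤ t), min_eq_left (by omega : i ≤ t)]
        exact g2 i (by omega)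
      · intro i hi j hj hij
        simp only at hij
        rw [min_eq_left hi, min_eq_left hj] at hij
        exact g3 i (by omega) j (by omega) hij
      · intro i hi
        simp only
        rw [min_eq_right hi, min_self]
      · have : rough r D (fun i => γ (min i t)) = 1 := by
          unfold rough
          rw [if_pos fun i hi => hD _ hi]
        rw [this]
        exact one_pos
      · simp only
        rw [min_self]
        exact h1
      · intro i
        simp only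
        rw [min_self]
        by_cases hi : i < t
        · rw [min_eq_left hi.le]
          exact (h3 i hi).trans h1.le
        · rw [min_eq_right (by omega)]
    refine irrelevant_of hμ hH hW1 h0 hloc hleave (C := 1) fun n => ?_
    refine (H982.HP.Mn_mono (g' := fun _ => 1) fun γ => ?_).trans (le_of_eq (H982.HP.Mn_one n))
    have := h0 γ
    have := hle γ
    nlinarith

end Pool.Agent.Results.MP_df1d0b_pr.BoundaryUniversality
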