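import Pool.Agent.H26.HP.Law

/-!
The self-avoiding walk on `ℤ²` in the closed upper half-plane with a large convex hull: the tail of
the area of the hull for walks weighted by `z^length`, uniformly in the fugacity `z` up to the
critical point, and the diameter, the height, the width, the area of the hull and the number of
steps of the walk given that the hull is large.
-/

set_option autoImplicit false

namespace Pool.Agent.Results.MP_df1d0b_pr.HalfPlaneHull

open Filter Topology MeasureTheory Set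

/-- `ω` is an `n`-step self-avoiding walk on `ℤ²` started at the origin. -/
def IsSAW (n : ℕ) (ω : Fin (n + 1) → ℤ × ℤ) : Prop :=
  ω 0 = (0, 0) ∧
  (∀ i : Fin n, |(ω i.succ).1 - (ω i.castSucc).1| + |(ω i.succ).2 - (ω i.castSucc).2| = 1) ∧
  Function.Injective ω

/-- the Euclidean diameter of the walk -/
noncomputable def diam (n : ℕ) (ω : Fin (n + 1) → ℤ × ℤ) : ℝ :=
  ⨆ p : Fin (n + 1) × Fin (n + 1),
    √((((ω p.1).1 : ℝ) - (ω p.2).1) ^ 2 + (((ω p.1).2 : ℝ) - (ω p.2).2) ^ 2)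

/-- the height: the largest ordinate -/
noncomputable def height (n : ℕ) (ω : Fin (n + 1) → ℤ × ℤ) : ℝ :=
  ⨆ i : Fin (n + 1), ((ω i).2 : ℝ)

/-- the width: the largest difference of two abscissae -/
noncomputable def width (n : ℕ) (ω : Fin (n + 1) → ℤ × ℤ) : ℝ :=
  ⨆ p : Fin (n + 1) × Fin (n + 1), ((ω p.1).1 : ℝ) - (ω p.2).1

/-- the area of the convex hull of the sites of the walk -/
noncomputable def hullArea (n : ℕ) (ω : Fin (n + 1) → ℤ × ℤ) : ℝ :=
  volume.real (convexHull ℝ (range fun i : Fin (n + 1) => (((ω i).1 : ℝ), ((ω i).2 : ℝ))))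

/-- the total weight of the self-avoiding walks with the property `P` in the closed upper
half-plane, of any number of steps, an `n`-step walk having the weight `z^n` -/
noncomputable def W (z : ℝ) (P : ∀ n : ℕ, (Fin (n + 1) → ℤ × ℤ) → Prop) : ℝ :=
  ∑' n : ℕ, z ^ n *
    ({ω : Fin (n + 1) → ℤ × ℤ | IsSAW n ω ∧ (∀ i, 0 ≤ (ω i).2) ∧ P n ω}.ncard : ℝ)

/-- the probability of `P` for the self-avoiding walk in the closed upper half-plane of random
length whose law is proportional to `z^(number of steps)` -/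
noncomputable def probZ (z : ℝ) (P : ∀ n : ℕ, (Fin (n + 1) → ℤ × ℤ) → Prop) : ℝ :=
  W z P / W z (fun _ _ => True)

/-- `c_n`: the number of `n`-step self-avoiding walks from the origin -/
noncomputable def c (n : ℕ) : ℕ := Nat.card {ω : Fin (n + 1) → ℤ × ℤ // IsSAW n ω}

/-- `c_n(x)`: the number of `n`-step self-avoiding walks from the origin to `x` -/
noncomputable def cx (n : ℕ) (x : ℤ × ℤ) : ℕ :=
  Nat.card {ω : Fin (n + 1) → ℤ × ℤ // IsSAW n ω ∧ ω (Fin.last n) = x}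

/-- the two-point function `G_z(x) = ∑_n c_n(x) z^n` of the whole plane -/
noncomputable def G (z : ℝ) (x : ℤ × ℤ) : ℝ := ∑' n : ℕ, (cx n x : ℝ) * z ^ n

/-- the Wulff shape of a function `m` of the directions `x ∈ ℤ²` -/
def Wulff (m : ℤ × ℤ → ℝ) : Set (ℝ × ℝ) :=
  {h | ∀ x : ℤ × ℤ, x ≠ 0 → h.1 * x.1 + h.2 * x.2 ≤ m x}

/-- `r(E) = √|K_z|` for the fugacity `z = e^(-E) / μ` -/
noncomputable def r (μ : ℝ) (m : ℝ → ℤ × ℤ → ℝ) (E : ℝ) : ℝ :=
  √(volume.real (Wulff (m (Real.exp (-E) / μ))))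

/-- the `n`-step walk is typical, up to `δ`, at the fugacity `z = e^(-E) / μ` for the hull area `a`:
its hull has an area smaller than `(1 + δ) a`; its diameter is between `√a` and `5 √a`; its height
and its width are larger than `√a / 5`; and `n / √(2a)` lies, up to `δ r(E) / E`, between the
difference quotients of `r` over `[E, (1 + h) E]` and over `[(1 - h) E, E]` -/
def Typ (μ : ℝ) (m : ℝ → ℤ × ℤ → ℝ) (E a δ h : ℝ) (n : ℕ) (ω : Fin (n + 1) → ℤ × ℤ) : Prop :=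
  hullArea n ω < (1 + δ) * a ∧ √a ≤ diam n ω ∧ diam n ω < 5 * √a ∧
  √a / 5 < height n ω ∧ √a / 5 < width n ω ∧
  √(2 * a) * ((r μ m ((1 + h) * E) - r μ m E) / h - δ * r μ m E) < n * E ∧
  n * E < √(2 * a) * ((r μ m E - r μ m ((1 - h) * E)) / h + δ * r μ m E)

theorem c_eq (n : ℕ) : c n = TH795.EP.c n := TH795.EP2.card_walks n

theorem cx_eq (n : ℕ) (x : ℤ × ℤ) : cx n x = TH795.EP.a n x.1 x.2 := TH795.EP2.card_walks_to n x

theorem G_eq (z : ℝ) (x y : ℤ) : G z (x, y) = Y981.L2.Gz z x y := by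
  unfold G Y981.L2.Gz
  apply tsum_congr
  intro n
  rw [cx_eq]

theorem W_eq (z : ℝ) (P : ∀ n : ℕ, (Fin (n + 1) → ℤ × ℤ) → Prop) :
    W z P = H26.GW.Ws z (H26.HP.HQ P) := rfl

/-- **Theorem.** Let `μ = lim c_n^(1/n)` and, for `0 < z < 1/μ` and `x ∈ ℤ²`, `x ≠ 0`,
`m_z(x) = lim_k - (1/k) log G_z(k x)` the inverse correlation length of the self-avoiding walk on
`ℤ²` in the direction `x`.  Its Wulff shape `K_z = {h : h · x ≤ m_z(x) for all x}` is a convex
compact neighbourhood of `0`.  Write `z = e^(-E) / μ`, `E > 0`; the critical point is `E → 0`.  Put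
`r(E) = √|K_z|`.  Let `P_z` be the law of the self-avoiding walk `ω` of random length which starts at
`0` and stays in the closed upper half-plane `{y ≥ 0}`, with weights `z^|ω|`; `A` is the area of the
convex hull of `ω`.
(1) `r` is a concave, nondecreasing function of `E` which tends to `0` as `E → 0`, and
`E ≤ m_z(1,0) ≤ r(E) ≤ 2 m_z(1,0)`, where `1/m_z(1,0)` is the correlation length.
(2) The tail: for `0 < ε < 1` there are `C` and `a₀` such that for all `E > 0` and all `a ≥ a₀`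
`P_z(A ≥ a)` is between `exp(-(1 + ε) √(2a) r(E) - C log²(2 + 1/E))` and
`exp(-(1 - ε) √(2a) r(E) + C log²(2 + 1/E))`; and the sum of `z^|ω|` over the walks in the
half-plane is between `1` and `exp(C log²(2 + 1/E))`.
(3) The law of the walk: for `κ, δ > 0` and `0 < h < 1` there are `c > 0`, `C` and `a₀` such
that the following holds for all `E > 0`, all `a ≥ a₀` with `√a r(E) ≥ C log²(2 + 1/E)` and all `S`
with `(a, (1 + κ) a) ⊆ S ⊆ [a, ∞)`.  Given `A ∈ S` the walk is typical (`Typ`) with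
`P_z`-probability at least `1 - exp(- c √a r(E))`: `A < (1 + δ) a`, the diameter is between `√a` and
`5 √a`, the height and the width are larger than `√a / 5`, and the number of steps is `√(2a)` times
the slope of `r` at `E`.
The constants do not depend on `E`, which may tend to `0`: the condition says that the area is
larger, by the factor `C log⁴(2 + 1/E)`, than the square of the correlation length. -/
theorem result : ∃ (μ : ℝ) (m : ℝ → ℤ × ℤ → ℝ),
    Tendsto (fun n : ℕ => (c n : ℝ) ^ (1 / (n : ℝ))) atTop (𝓝 μ) ∧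
    (∀ z : ℝ, 0 < z → z < 1 / μ → (∀ x : ℤ × ℤ, x ≠ 0 → 0 < m z x ∧
      Tendsto (fun k : ℕ => - Real.log (G z (k * x.1, k * x.2)) / k) atTop (𝓝 (m z x))) ∧
      Convex ℝ (Wulff (m z)) ∧ IsCompact (Wulff (m z)) ∧ (0 : ℝ × ℝ) ∈ interior (Wulff (m z))) ∧
    (ConcaveOn ℝ (Ioi 0) (r μ m) ∧ MonotoneOn (r μ m) (Ioi 0) ∧
      Tendsto (r μ m) (𝓝[>] 0) (𝓝 0) ∧ ∀ E : ℝ, 0 < E →
        E ≤ m (Real.exp (-E) / μ) (1, 0) ∧ m (Real.exp (-E) / μ) (1, 0) ≤ r μ m E ∧
        r μ m E ≤ 2 * m (Real.exp (-E) / μ) (1, 0)) ∧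
    (∀ ε : ℝ, 0 < ε → ε < 1 → ∃ C a₀ : ℝ, 0 < C ∧ 0 < a₀ ∧ ∀ E : ℝ, 0 < E →
      1 ≤ W (Real.exp (-E) / μ) (fun _ _ => True) ∧
      W (Real.exp (-E) / μ) (fun _ _ => True) ≤ Real.exp (C * Real.log (2 + 1 / E) ^ 2) ∧
      ∀ a : ℝ, a₀ ≤ a →
        Real.exp (-((1 + ε) * (√(2 * a) * r μ m E)) - C * Real.log (2 + 1 / E) ^ 2) ≤
          probZ (Real.exp (-E) / μ) (fun n ω => a ≤ hullArea n ω) ∧
        probZ (Real.exp (-E) / μ) (fun n ω => a ≤ hullArea n ω) ≤
          Real.exp (-((1 - ε) * (√(2 * a) * r μ m E)) + C * Real.log (2 + 1 / E) ^ 2)) ∧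
    (∀ κ δ h : ℝ, 0 < κ → 0 < δ → 0 < h → h < 1 → ∃ c C a₀ : ℝ, 0 < c ∧ 0 < C ∧ 0 < a₀ ∧
      ∀ E : ℝ, 0 < E → ∀ a : ℝ, a₀ ≤ a → C * Real.log (2 + 1 / E) ^ 2 ≤ √a * r μ m E →
      ∀ S : Set ℝ, Ioo a ((1 + κ) * a) ⊆ S → S ⊆ Ici a →
        0 < probZ (Real.exp (-E) / μ) (fun n ω => hullArea n ω ∈ S) ∧
        probZ (Real.exp (-E) / μ)
            (fun n ω => hullArea n ω ∈ S ∧ ¬Typ μ m E a δ h n ω) ≤
          Real.exp (-(c * (√a * r μ m E))) *
            probZ (Real.exp (-E) / μ) (fun n ω => hullArea n ω ∈ S)) := by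
  have hmu := H981.mu_pos
  obtain ⟨m, hm⟩ : ∃ m : ℝ → ℤ × ℤ → ℝ,
      m = fun z x => Y981.L2X.M (-Real.log (z * H981.mu)) ((x.1 : ℝ), (x.2 : ℝ)) := ⟨_, rfl⟩
  have hlogE : ∀ z : ℝ, 0 < z → z < 1 / H981.mu → 0 < -Real.log (z * H981.mu) := by
    intro z hz hz1
    have h1 : z * H981.mu < 1 := by rwa [lt_div_iff₀ hmu] at hz1
    have h2 := Real.log_neg (mul_pos hz hmu) h1
    linarith
  have hW : ∀ z : ℝ, 0 < z → z < 1 / H981.mu →
      Wulff (m z) = H26.WF.Kc (-Real.log (z * H981.mu)) := by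
    intro z hz hz1
    rw [hm]
    exact H26.WF.shape (hlogE z hz hz1)
  have hz0 : ∀ E : ℝ, 0 < Real.exp (-E) / H981.mu := fun E => by positivity
  have hz1 : ∀ E : ℝ, 0 < E → Real.exp (-E) / H981.mu < 1 / H981.mu := by
    intro E hE
    rw [div_lt_div_iff_of_pos_right hmu, ← Real.exp_zero]
    exact Real.exp_lt_exp.2 (by linarith)
  have hzE : ∀ E : ℝ, -Real.log (Real.exp (-E) / H981.mu * H981.mu) = E := by
    intro E
    rw [div_mul_cancel₀ _ hmu.ne', Real.log_exp, neg_neg]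
  have hWE : ∀ E : ℝ, 0 < E → Wulff (m (Real.exp (-E) / H981.mu)) = H26.WF.Kc E := by
    intro E hE
    rw [hW _ (hz0 E) (hz1 E hE), hzE]
  have hr : ∀ E : ℝ, 0 < E → r H981.mu m E = H26.WF.g E := by
    intro E hE
    unfold r
    rw [hWE E hE]
    rfl
  have hmE : ∀ E : ℝ, 0 < E → m (Real.exp (-E) / H981.mu) (1, 0) = Y981.L2.mass E := by
    intro E hE
    rw [hm]
    simp only [hzE]
    rw [← Y981.L2X.M_axis hE]
    simp
  have hdm : ∀ (n : ℕ) (ω : Fin (n + 1) → ℤ × ℤ), √(hullArea n ω) ≤ diam n ω := by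
    intro n ω
    have h0 : 0 ≤ diam n ω := H26.GW.dm_nonneg ω
    have h1 : hullArea n ω ≤ diam n ω ^ 2 := H26.GW.hA_dm ω
    exact (Real.sqrt_le_left h0).2 h1
  refine ⟨H981.mu, m, ?_, ?_, ⟨?_, ?_, ?_, ?_⟩, ?_, ?_⟩
  · refine H981.tendsto_root.congr ?_
    intro n
    rw [c_eq, TH795.EP.c_eq]
  · intro z hz hz1
    have he := hlogE z hz hz1
    refine ⟨fun x hx => ?_, ?_⟩
    · rw [hm]
      refine ⟨Y981.L2X.M_pos he hx, ?_⟩
      refine (Y981.L2X.G_dir hz hz1 hx).congr ?_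
      intro k
      rw [G_eq]
    · rw [hW z hz hz1]
      exact H26.WF.Kc_props he
  · exact H26.WF.g_concave.congr fun E hE => (hr E hE).symm
  · intro E hE F hF hEF
    rw [mem_Ioi] at hE hF
    rw [hr E hE, hr F hF]
    unfold H26.WF.g
    apply Real.sqrt_le_sqrt
    unfold H26.WF.V
    exact measureReal_mono (H26.GC.Kc_mono hEF) (H26.WF.Kc_props hF).2.1.measure_lt_top.ne
  · rw [Metric.tendsto_nhds]
    intro ε hε
    filter_upwards [H26.WF.g_small hε, self_mem_nhdsWithin] with E h1 h2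
    rw [mem_Ioi] at h2
    rw [hr E h2, Real.dist_eq, sub_zero, abs_of_nonneg (H26.WF.g_nonneg E)]
    exact h1
  · intro E hE
    rw [hmE E hE, hr E hE]
    exact ⟨Y981.L2.self_le_mass hE.le, H26.UN.mass_le_g hE, H26.WF.g_le_mass hE⟩
  · intro ε hε hε1
    obtain ⟨C0, hC0, hchi⟩ := H26.HP.chi_H
    obtain ⟨C1, s₀, hC1, hs₀, hlow⟩ := H26.HP.H_low hε hε1
    obtain ⟨C2, hC2, hup⟩ := H26.GW.W_up hε hε1
    refine ⟨C0 + C1 + C2, s₀ ^ 2, by positivity, by positivity, ?_⟩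
    intro E hE
    obtain ⟨-, w1, w2⟩ := hchi _ (hz0 E) (by rw [hzE]; exact hE)
    rw [hzE] at w2
    have hL : 0 ≤ H26.GC.Lm E ^ 2 := sq_nonneg _
    have e : H26.GC.Lm E = Real.log (2 + 1 / E) := rfl
    rw [e] at w2 hL
    have b0 := mul_nonneg hC0.le hL
    have b1 := mul_nonneg hC1.le hL
    have b2 := mul_nonneg hC2.le hL
    have e3 : (C0 + C1 + C2) * Real.log (2 + 1 / E) ^ 2 = C0 * Real.log (2 + 1 / E) ^ 2 +
      C1 * Real.log (2 + 1 / E) ^ 2 + C2 * Real.log (2 + 1 / E) ^ 2 := by ring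
    refine ⟨w1, w2.trans (Real.exp_le_exp.2 (by rw [e3]; linarith)), ?_⟩
    intro a ha
    have ha0 : 0 < a := lt_of_lt_of_le (by positivity) ha
    have hs : s₀ ≤ √(2 * a) := Real.le_sqrt_of_sq_le (by linarith)
    have hs1 : 1 ≤ √(2 * a) := by linarith
    have hsq : √(2 * a) ^ 2 / 2 = a := by
      rw [Real.sq_sqrt (by linarith)]
      ring
    have h1 := hlow _ (hz0 E) (by rw [hzE]; exact hE) √(2 * a) hs
    obtain ⟨hsum, h2⟩ := hup _ (hz0 E) (by rw [hzE]; exact hE) √(2 * a) hs1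
    have h3 := (H26.GW.sum_of_le (hz0 E) (Q := H26.HP.HQ (H26.GW.Hu (√(2 * a) ^ 2 / 2)))
      (Q' := H26.GW.Hu (√(2 * a) ^ 2 / 2)) (fun n ω hω hq => hq.2) hsum).2.trans h2
    rw [hzE, hsq, e] at h1 h3
    rw [hr E hE]
    have hw0 : 0 < W (Real.exp (-E) / H981.mu) (fun _ _ => True) := lt_of_lt_of_le one_pos w1
    unfold probZ
    constructor
    · rw [le_div_iff₀ hw0]
      have q1 : W (Real.exp (-E) / H981.mu) (fun _ _ => True) ≤
          Real.exp (C0 * Real.log (2 + 1 / E) ^ 2) := w2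
      refine (mul_le_mul_of_nonneg_left q1 (Real.exp_pos _).le).trans ?_
      rw [← Real.exp_add]
      refine le_trans (Real.exp_le_exp.2 ?_) h1
      rw [e3]
      linarith
    · rw [div_le_iff₀ hw0]
      refine h3.trans ?_
      refine le_trans (Real.exp_le_exp.2 ?_) (le_mul_of_one_le_right (Real.exp_pos _).le w1)
      rw [e3]
      linarith
  · intro κ δ h hκ hδ h0 h1
    obtain ⟨c1, C1, s₀, hc1, hC1, hs₀, hlaw⟩ := H26.HP.H_law hκ hδ h0 h1
    obtain ⟨C0, hC0, hchi⟩ := H26.HP.chi_H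
    refine ⟨c1, C1, s₀ ^ 2, hc1, hC1, by positivity, ?_⟩
    intro E hE a ha hbig S hS1 hS2
    obtain ⟨-, w1, -⟩ := hchi _ (hz0 E) (by rw [hzE]; exact hE)
    have hw0 : 0 < W (Real.exp (-E) / H981.mu) (fun _ _ => True) := lt_of_lt_of_le one_pos w1
    have ha0 : 0 < a := lt_of_lt_of_le (by positivity) ha
    have hs : s₀ ≤ √(2 * a) := Real.le_sqrt_of_sq_le (by linarith)
    have hs0 : 0 < √(2 * a) := Real.sqrt_pos.2 (by linarith)
    have hsa : √a ≤ √(2 * a) := Real.sqrt_le_sqrt (by linarith)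
    have hsq : √(2 * a) ^ 2 / 2 = a := by
      rw [Real.sq_sqrt (by linarith)]
      ring
    have hg := H26.UN.g_pos hE
    have hE1 : 0 < (1 + h) * E := mul_pos (by linarith) hE
    have hE2 : 0 < (1 - h) * E := mul_pos (by linarith) hE
    rw [hr E hE] at hbig ⊢
    have hX := mul_le_mul_of_nonneg_right hsa hg.le
    obtain ⟨q1, q2⟩ := hlaw _ (hz0 E) (by rw [hzE]; exact hE) √(2 * a) hs (by
      rw [hzE]
      exact hbig.trans hX) S (by rw [hsq]; exact hS1) (by rw [hsq]; exact hS2)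
    rw [hzE, hsq] at q2
    have q3 := q2 (H26.HP.HQ (fun n ω => hullArea n ω ∈ S ∧ ¬Typ H981.mu m E a δ h n ω)) (by
      intro n ω hω hq
      obtain ⟨hpos, hq1, hq2⟩ := hq
      have hq1' : H26.GW.hA n ω ∈ S := hq1
      refine ⟨hq1', ?_⟩
      by_contra hcon
      push Not at hcon
      obtain ⟨p1, p2, p3, p4⟩ := hcon
      apply hq2
      obtain ⟨p5, p6⟩ := H26.HP.wh_low (ω := ω) (by rw [hω.1]) hpos ha0 (hS2 hq1) p2
      refine ⟨p1, (Real.sqrt_le_sqrt (hS2 hq1)).trans (hdm n ω), p2, p5, p6, ?_, ?_⟩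
      · rw [hr E hE, hr _ hE1]
        exact p4
      · rw [hr E hE, hr _ hE2]
        exact p3)
    have q4 : W (Real.exp (-E) / H981.mu)
        (fun n ω => hullArea n ω ∈ S ∧ ¬Typ H981.mu m E a δ h n ω) ≤
        Real.exp (-(c1 * (√a * H26.WF.g E))) *
          W (Real.exp (-E) / H981.mu) (fun n ω => hullArea n ω ∈ S) := by
      refine q3.trans ?_
      apply mul_le_mul_of_nonneg_right _ q1.le
      apply Real.exp_le_exp.2
      have := mul_le_mul_of_nonneg_left hX hc1.le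
      linarith
    unfold probZ
    refine ⟨div_pos q1 hw0, ?_⟩
    rw [← mul_div_assoc]
    exact div_le_div_of_nonneg_right q4 hw0.le

end Pool.Agent.Results.MP_df1d0b_pr.HalfPlaneHull
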