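import Pool.Agent.H982.DN18

/-!
# Bridges in a wedge

For the self-avoiding walk on `Z^d`, `d ≥ 2`, with the weights `μ^(-length)`, the bridges of height at
most `R` which stay in the wedge `|y| ≤ β x` of their starting point, `β < 1/3`, have total weight at
most `C √R`.
-/

set_option autoImplicit false

namespace Pool.Agent.Results.MP_df1d0b_pr.WedgeBridges

open Filter Topology
open scoped ENNReal

/-- the nearest neighbours of the origin of `Z^d` -/
def Step (d : ℕ) : Set (Fin d → ℤ) := {v | ∑ k, |v k| = 1}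

/-- the position at time `i` of the walk which starts at the origin and has the steps `w` -/
def pos {d : ℕ} (w : List (Fin d → ℤ)) (i : ℕ) : Fin d → ℤ := (w.take i).sum

/-- `w` is the list of steps of a nearest-neighbour self-avoiding walk from the origin -/
def IsSAW {d : ℕ} (w : List (Fin d → ℤ)) : Prop :=
  (∀ a ∈ w, a ∈ Step d) ∧ ∀ i j, i < j → j ≤ w.length → pos w i ≠ pos w j

/-- the number of self-avoiding walks with `n` steps from the origin -/
noncomputable def c (d n : ℕ) : ℕ := {w : List (Fin d → ℤ) | w.length = n ∧ IsSAW w}.ncard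

/-- bridges in the direction of the coordinate `x` -/
def IsBridge {d : ℕ} (x : Fin d) (w : List (Fin d → ℤ)) : Prop :=
  IsSAW w ∧ ∀ i, 0 < i → i ≤ w.length → 0 < pos w i x ∧ pos w i x ≤ pos w w.length x

/-- bridges in the wedge `|y| ≤ β x` of their starting point -/
def IsWedgeBridge {d : ℕ} (x y : Fin d) (β : ℝ) (w : List (Fin d → ℤ)) : Prop :=
  IsBridge x w ∧ ∀ i, i ≤ w.length → |(pos w i y : ℝ)| ≤ β * pos w i x

lemma c_eq (d n : ℕ) : c d n = Pool.Agent.Q234.HS.N (Pool.Agent.Q234.HS.Zd.St d)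
    Pool.Agent.Q234.HS.Saw n := by
  unfold c Pool.Agent.Q234.HS.N Pool.Agent.Q234.HS.W
  congr 1
  ext w
  rw [Set.mem_ofPred_eq, Set.mem_ofPred_eq, H982.DN.saw_iff]
  exact Iff.rfl

lemma wg_of {d : ℕ} {x y : Fin d} (hxy : x ≠ y) {β : ℝ} {w : List (Fin d → ℤ)}
    (h : IsWedgeBridge x y β w) : H982.DN.Wg (H982.DN.cub x y hxy) β w := by
  have hw : pos w w.length = w.sum := by
    unfold pos
    rw [List.take_length]
  obtain ⟨⟨⟨a1, a2⟩, a3⟩, a4⟩ := h
  rw [hw] at a3
  refine ⟨a1, ?_, ?_⟩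
  · rw [H982.DN.br_iff, H982.DN.saw_iff]
    exact ⟨a2, a3⟩
  · intro u hu
    have e : u = w.take u.length := List.prefix_iff_eq_take.1 hu
    have := a4 u.length hu.length_le
    unfold pos at this
    rw [← e] at this
    exact this

lemma diag_one {d : ℕ} {x y : Fin d} (hxy : x ≠ y) : ∀ a ∈ (H982.DN.cub x y hxy).S,
    0 < H982.DN.dg (H982.DN.cub x y hxy) a → H982.DN.dg (H982.DN.cub x y hxy) a = 1 := by
  intro a ha h
  have h0 : ∑ k, |a k| = 1 := ha
  have h1 : |a x| + |a y| ≤ ∑ k, |a k| := by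
    rw [← Finset.sum_pair hxy (f := fun k => |a k|)]
    exact Finset.sum_le_sum_of_subset_of_nonneg (Finset.subset_univ _) fun _ _ _ => abs_nonneg _
  rw [h0] at h1
  change 0 < a x + a y at h
  change a x + a y = 1
  have h2 := le_abs_self (a x)
  have h3 := le_abs_self (a y)
  omega

/-- **Bridges in a wedge**: those of height at most `R` have total weight at most `C √R`, on `Z^d` for
every `d ≥ 2`. -/
theorem result : ∀ d : ℕ, 2 ≤ d → ∃ μ : ℝ, 0 < μ ∧
    Tendsto (fun n : ℕ => (c d n : ℝ) ^ (1 / (n : ℝ))) atTop (𝓝 μ) ∧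
    ∀ x y : Fin d, x ≠ y → ∀ β : ℝ, 0 ≤ β → β < 1 / 3 → ∃ C : ℝ, 0 < C ∧ ∀ R : ℝ, 1 ≤ R →
      ∑' w : {w // IsWedgeBridge x y β w ∧ (pos w w.length x : ℝ) ≤ R},
        ENNReal.ofReal ((μ ^ w.1.length)⁻¹) ≤ ENNReal.ofReal (C * √R) := by
  intro d hd
  have h01 : (⟨0, by omega⟩ : Fin d) ≠ ⟨1, by omega⟩ := by
    intro h
    have := congrArg Fin.val h
    simp at this
  obtain ⟨μ, F⟩ := H982.DN.exists_fct (H982.DN.cub _ _ h01)
  have hlim : Tendsto (fun n : ℕ => (c d n : ℝ) ^ (1 / (n : ℝ))) atTop (𝓝 μ) := by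
    simp only [c_eq]
    exact F.lim
  refine ⟨μ, F.pos, hlim, fun x y hxy β b0 b1 => ?_⟩
  obtain ⟨μ', F'⟩ := H982.DN.exists_fct (H982.DN.cub x y hxy)
  have e : μ' = μ := tendsto_nhds_unique F'.lim F.lim
  subst e
  obtain ⟨C, hC, h⟩ := H982.DN.wedge_total F' (diag_one hxy) b0 b1
  refine ⟨C, hC, fun R hR => ?_⟩
  classical
  have hμ := F'.pos
  rw [ENNReal.tsum_eq_iSup_sum]
  refine iSup_le fun s => ?_
  rw [← ENNReal.ofReal_sum_of_nonneg fun x _ => by positivity]
  refine ENNReal.ofReal_le_ofReal ?_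
  have h1 := h R hR (s.image Subtype.val) (by
    intro w hw
    rw [Finset.mem_image] at hw
    obtain ⟨⟨w, hw1, hw2⟩, -, rfl⟩ := hw
    have hwl : pos w w.length = w.sum := by
      unfold pos
      rw [List.take_length]
    rw [hwl] at hw2
    exact ⟨wg_of hxy hw1, hw2⟩)
  rwa [Finset.sum_image fun x _ y _ hxy => Subtype.ext hxy] at h1

end Pool.Agent.Results.MP_df1d0b_pr.WedgeBridges
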